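import Pool.Agent.W739.CY.Stm

set_option autoImplicit false

namespace Pool.Agent.W816.CY

open Pool.Agent.W739.CY Finset

section splLemmas

variable {C : Type}

theorem spl_append (f : List C → C → List C → ℝ) (u v : List C) :
    spl f (u ++ v) = spl (fun a c b => f a c (b ++ v)) u + spl (fun a c b => f (u ++ a) c b) v := by
  induction u generalizing f with
  | nil => simp [spl]
  | cons x u ih =>
    simp only [List.cons_append, spl]
    rw [ih]
    ring

theorem spl_congr (f g : List C → C → List C → ℝ) (w : List C)
    (h : ∀ v c u, w = v ++ c :: u → f v c u = g v c u) : spl f w = spl g w := by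
  induction w generalizing f g with
  | nil => rfl
  | cons x w ih =>
    simp only [spl]
    rw [h [] x w rfl, ih (fun v c u => f (x :: v) c u) (fun v c u => g (x :: v) c u)]
    intro v c u e
    exact h (x :: v) c u (by rw [e]; rfl)

theorem spl_zero (w : List C) : spl (fun _ _ _ => (0 : ℝ)) w = 0 := by
  induction w with
  | nil => rfl
  | cons x w ih => simp only [spl]; rw [ih]; ring

theorem spl_eq_zero (f : List C → C → List C → ℝ) (w : List C)
    (h : ∀ v c u, w = v ++ c :: u → f v c u = 0) : spl f w = 0 := by
  rw [spl_congr f (fun _ _ _ => 0) w h, spl_zero]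

theorem spl_mul_left (k : ℝ) (f : List C → C → List C → ℝ) (w : List C) :
    spl (fun v c u => k * f v c u) w = k * spl f w := by
  induction w generalizing f with
  | nil => simp [spl]
  | cons x w ih => simp only [spl]; rw [ih]; ring

theorem spl_sum {ι : Type} (s : Finset ι) (f : ι → List C → C → List C → ℝ) (w : List C) :
    ∑ i ∈ s, spl (f i) w = spl (fun v c u => ∑ i ∈ s, f i v c u) w := by
  induction w generalizing f with
  | nil => simp [spl]
  | cons x w ih =>
    simp only [spl]
    rw [Finset.sum_add_distrib, ih]

theorem spl_nonneg (f : List C → C → List C → ℝ) (w : List C)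
    (h : ∀ v c u, w = v ++ c :: u → 0 ≤ f v c u) : 0 ≤ spl f w := by
  induction w generalizing f with
  | nil => exact le_refl _
  | cons x w ih =>
    simp only [spl]
    apply add_nonneg (h [] x w rfl)
    apply ih
    intro v c u e
    exact h (x :: v) c u (by rw [e]; rfl)

theorem spl_map (g : C → C) (f : List C → C → List C → ℝ) (w : List C) :
    spl f (w.map g) = spl (fun v c u => f (v.map g) (g c) (u.map g)) w := by
  induction w generalizing f with
  | nil => rfl
  | cons x w ih =>
    simp only [List.map_cons, spl]
    rw [ih]
    rfl

theorem Pr_mid (a b : Option C) (x : C) (u v : List C) :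
    Pr a (u ++ x :: v) b ↔ Pr a u (some x) ∧ Pr (some x) v b := by
  induction u generalizing a with
  | nil => simp [Pr]
  | cons y u ih =>
    simp only [List.cons_append, Pr]
    rw [ih]
    tauto

theorem Pr_double (a b : Option C) (x : C) (u v : List C) : ¬ Pr a (u ++ x :: x :: v) b := by
  rw [Pr_mid]
  rintro ⟨-, h⟩
  simp [Pr, ok] at h

theorem Pr_last (a : Option C) (x : C) (u : List C) (h : Pr a u none)
    (h1 : u.getLast? ≠ some x) (h2 : u = [] → ok a (some x)) : Pr a u (some x) := by
  rcases List.eq_nil_or_concat u with rfl | ⟨u', l, rfl⟩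
  · simpa [Pr] using h2 rfl
  · rw [List.concat_eq_append] at *
    rw [Pr_mid] at h ⊢
    refine ⟨h.1, ?_⟩
    simp only [List.getLast?_append, List.getLast?_singleton, Option.some_or, ne_eq,
      Option.some.injEq] at h1
    simp [Pr, ok, h1]

theorem Pr_head (b : Option C) (x : C) (v : List C) (h : Pr none v b)
    (h1 : v.head? ≠ some x) (h2 : v = [] → ok (some x) b) : Pr (some x) v b := by
  cases v with
  | nil => simpa [Pr] using h2 rfl
  | cons y v =>
    simp only [List.head?_cons, ne_eq, Option.some.injEq] at h1
    simp only [Pr] at h ⊢
    refine ⟨?_, h.2⟩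
    right
    intro e
    exact h1 (Option.some.inj e).symm

theorem Pr_none_of_left (a b : Option C) (u v : List C) (h : Pr a (u ++ v) b) : Pr a u none := by
  induction u generalizing a with
  | nil =>
    simp only [Pr, ok]
    by_cases e : a = none
    · left; exact e
    · right; exact e
  | cons y u ih =>
    simp only [List.cons_append, Pr] at h ⊢
    exact ⟨h.1, ih _ h.2⟩

theorem Pr_none_of_some (x : C) (b : Option C) (v : List C) (h : Pr (some x) v b) :
    Pr none v b := by
  cases v with
  | nil => simp [Pr, ok]
  | cons y v =>
    simp only [Pr] at h ⊢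
    exact ⟨Or.inl rfl, h.2⟩

theorem Pr_none_of_right (a b : Option C) (u v : List C) (h : Pr a (u ++ v) b) : Pr none v b := by
  induction u generalizing a with
  | nil =>
    cases a with
    | none => exact h
    | some x => exact Pr_none_of_some x b v h
  | cons y u ih =>
    simp only [List.cons_append, Pr] at h
    exact ih _ h.2

theorem Pr_map (σ : Equiv.Perm C) (a b : Option C) (w : List C) :
    Pr (a.map σ) (w.map σ) (b.map σ) ↔ Pr a w b := by
  have hok : ∀ a b : Option C, ok (a.map σ) (b.map σ) ↔ ok a b := by
    intro a b
    cases a with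
    | none => simp [ok]
    | some x =>
      cases b with
      | none => simp [ok]
      | some y => simp [ok]
  induction w generalizing a with
  | nil => simp only [List.map_nil, Pr]; exact hok a b
  | cons x w ih =>
    simp only [List.map_cons, Pr]
    have h1 := hok a (some x)
    have h2 := ih (some x)
    simp only [Option.map_some] at h1 h2
    exact and_congr h1 h2

end splLemmas

abbrev L4 := List (Fin 4)

noncomputable def Bn : ℕ → L4 → ℝ
  | 0, _ => 1
  | n + 1, w => if Pr none w none then spl (fun v _ u => Bn n (v ++ u)) w else 0

noncomputable def B (w : L4) : ℝ := Bn w.length w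

theorem B_nil : B [] = 1 := rfl

theorem B_rec (w : L4) (hw : w ≠ []) (h : Pr none w none) :
    B w = spl (fun v _ u => B (v ++ u)) w := by
  obtain ⟨n, hn⟩ : ∃ n, w.length = n + 1 := ⟨w.length - 1, by
    have := List.length_pos_iff.2 hw; omega⟩
  unfold B
  rw [hn]
  simp only [Bn, if_pos h]
  apply spl_congr
  intro v c u e
  have : (v ++ u).length = n := by
    rw [e] at hn
    simp only [List.length_append, List.length_cons] at hn ⊢
    omega
  rw [this]

theorem B_not (w : L4) (h : ¬ Pr none w none) : B w = 0 := by
  cases w with
  | nil => exact absurd (by simp [Pr, ok]) h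
  | cons x w =>
    unfold B
    simp only [List.length_cons, Bn, if_neg h]

theorem B_double (a b : L4) (x : Fin 4) : B (a ++ x :: x :: b) = 0 :=
  B_not _ (Pr_double _ _ x a b)

/-- sum over the deletions of one letter -/
noncomputable def D (f : L4 → ℝ) (w : L4) : ℝ := spl (fun a _ b => f (a ++ b)) w

theorem D_mid (f : L4 → ℝ) (u v : L4) (x : Fin 4) :
    D f (u ++ x :: v) = D (fun t => f (t ++ x :: v)) u + f (u ++ v) + D (fun t => f (u ++ x :: t)) v := by
  unfold D
  rw [spl_append]
  simp only [spl]
  have h1 : spl (fun a (_ : Fin 4) b => f (a ++ (b ++ x :: v))) u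
      = spl (fun a (_ : Fin 4) b => f (a ++ b ++ x :: v)) u := by
    apply spl_congr; intro a c b _; rw [List.append_assoc]
  have h2 : spl (fun a (_ : Fin 4) b => f (u ++ (x :: a) ++ b)) v
      = spl (fun a (_ : Fin 4) b => f (u ++ x :: (a ++ b))) v := by
    apply spl_congr; intro a c b _
    congr 1
    simp
  rw [h1, h2]
  simp only [List.append_nil]
  ring

theorem D_eq_zero (f : L4 → ℝ) (w : L4) (h : ∀ t, f t = 0) : D f w = 0 :=
  spl_eq_zero _ _ (fun _ _ _ _ => h _)

theorem Kx (u v : L4) (hu : Pr none u none) (hv : Pr none v none) (x : Fin 4) :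
    D B (u ++ x :: v) = B (u ++ x :: v) +
      2 * ((if u.getLast? = some x then 1 else 0) + (if v.head? = some x then 1 else 0)) *
        B (u ++ v) := by
  by_cases h1 : u.getLast? = some x
  · obtain ⟨u', rfl⟩ : ∃ u', u = u' ++ [x] := by
      rcases List.eq_nil_or_concat u with rfl | ⟨u', l, rfl⟩
      · simp at h1
      · rw [List.concat_eq_append] at *
        simp only [List.getLast?_append, List.getLast?_singleton, Option.some_or,
          Option.some.injEq] at h1
        exact ⟨u', by rw [h1]⟩
    have e0 : B (u' ++ [x] ++ x :: v) = 0 := by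
      rw [List.append_assoc]; exact B_double u' v x
    have e1 : D B (u' ++ [x] ++ x :: v) = 2 * B (u' ++ [x] ++ v) := by
      rw [D_mid]
      have z3 : D (fun t => B (u' ++ [x] ++ x :: t)) v = 0 := by
        apply D_eq_zero; intro t; rw [List.append_assoc]; exact B_double u' t x
      have z1 : D (fun t => B (t ++ x :: v)) (u' ++ [x]) = B (u' ++ [x] ++ v) := by
        rw [D_mid]
        have z4 : D (fun t => B (t ++ x :: [] ++ x :: v)) u' = 0 := by
          apply D_eq_zero; intro t; rw [List.append_assoc]; exact B_double t v x
        rw [z4]
        simp [D, spl]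
      rw [z3, z1]; ring
    rw [e1, e0]
    by_cases h2 : v.head? = some x
    · cases v with
      | nil => simp at h2
      | cons y v =>
        simp only [List.head?_cons, Option.some.injEq] at h2
        subst h2
        have : B (u' ++ [y] ++ y :: v) = 0 := by
          rw [List.append_assoc]; exact B_double u' v y
        rw [this]; ring
    · rw [if_pos h1, if_neg h2]; ring
  · by_cases h2 : v.head? = some x
    · cases v with
      | nil => simp at h2
      | cons y v =>
        simp only [List.head?_cons, Option.some.injEq] at h2
        subst h2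
        rw [if_neg h1, if_pos (show (y :: v).head? = some y from rfl), B_double, D_mid]
        have z1 : D (fun t => B (t ++ y :: y :: v)) u = 0 := by
          apply D_eq_zero; intro t; exact B_double t v y
        have z2 : D (fun t => B (u ++ y :: t)) (y :: v) = B (u ++ y :: v) := by
          have := D_mid (fun t => B (u ++ y :: t)) [] v y
          simp only [List.nil_append] at this
          rw [this]
          have z4 : D (fun t => B (u ++ y :: y :: t)) v = 0 := by
            apply D_eq_zero; intro t; exact B_double u t y
          rw [z4]
          simp [D, spl]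
        rw [z1, z2]; ring
    · rw [if_neg h1, if_neg h2]
      have hp : Pr none (u ++ x :: v) none := by
        rw [Pr_mid]
        exact ⟨Pr_last none x u hu h1 (fun _ => Or.inl rfl),
          Pr_head none x v hv h2 (fun _ => Or.inr (by simp))⟩
      rw [B_rec _ (by simp) hp]
      unfold D
      ring

theorem sum_last (u : L4) : ∑ x : Fin 4, (if u.getLast? = some x then (1 : ℝ) else 0)
    = if u = [] then 0 else 1 := by
  rcases List.eq_nil_or_concat u with rfl | ⟨u', l, rfl⟩
  · simp
  · rw [List.concat_eq_append]
    simp

theorem sum_head (v : L4) : ∑ x : Fin 4, (if v.head? = some x then (1 : ℝ) else 0)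
    = if v = [] then 0 else 1 := by
  cases v with
  | nil => simp
  | cons y v => simp

theorem D_B (u : L4) (hu : Pr none u none) : D B u = (if u = [] then 0 else 1) * B u := by
  by_cases h : u = []
  · subst h; simp [D, spl]
  · rw [if_neg h, one_mul]; exact (B_rec u h hu).symm

theorem star (m : ℕ) : ∀ u v : L4, u.length + v.length = m →
    ∑ x : Fin 4, B (u ++ x :: v) = 2 * ((m + 2).choose (u.length + 1) : ℝ) * B u * B v := by
  induction m with
  | zero =>
    intro u v h
    have hu : u = [] := List.length_eq_zero_iff.1 (by omega)
    have hv : v = [] := List.length_eq_zero_iff.1 (by omega)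
    subst hu hv
    have : ∀ x : Fin 4, B ([] ++ [x]) = 1 := by
      intro x
      rw [B_rec _ (by simp) (by simp [Pr, ok])]
      simp [spl, B_nil]
    simp only [this, B_nil]
    simp
    norm_num
  | succ m ih =>
    intro u v h
    by_cases hu : Pr none u none
    · by_cases hv : Pr none v none
      · have hK : ∑ x : Fin 4, B (u ++ x :: v) = ∑ x : Fin 4, D B (u ++ x :: v)
            - 2 * ((if u = [] then 0 else 1) + (if v = [] then 0 else 1)) * B (u ++ v) := by
          rw [← sum_last u, ← sum_head v, ← Finset.sum_add_distrib, Finset.mul_sum, Finset.sum_mul,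
            ← Finset.sum_sub_distrib]
          apply Finset.sum_congr rfl
          intro x _
          rw [Kx u v hu hv x]
          ring
        have hD : ∑ x : Fin 4, D B (u ++ x :: v) =
            D (fun t => ∑ x : Fin 4, B (t ++ x :: v)) u + 4 * B (u ++ v) +
            D (fun t => ∑ x : Fin 4, B (u ++ x :: t)) v := by
          simp only [D_mid, Finset.sum_add_distrib]
          unfold D
          rw [spl_sum, spl_sum]
          simp
        have h1 : D (fun t => ∑ x : Fin 4, B (t ++ x :: v)) u
            = 2 * ((m + 2).choose u.length : ℝ) * B v * D B u := by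
          unfold D
          rw [← spl_mul_left]
          apply spl_congr
          intro a c b e
          have hl : (a ++ b).length + v.length = m := by
            rw [e] at h
            simp only [List.length_append, List.length_cons] at h ⊢
            omega
          beta_reduce
          rw [ih (a ++ b) v hl]
          have : (a ++ b).length + 1 = u.length := by
            rw [e]; simp only [List.length_append, List.length_cons]; omega
          rw [this]; ring
        have h2 : D (fun t => ∑ x : Fin 4, B (u ++ x :: t)) v
            = 2 * ((m + 2).choose (u.length + 1) : ℝ) * B u * D B v := by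
          unfold D
          rw [← spl_mul_left]
          apply spl_congr
          intro a c b e
          have hl : u.length + (a ++ b).length = m := by
            rw [e] at h
            simp only [List.length_append, List.length_cons] at h ⊢
            omega
          beta_reduce
          rw [ih u (a ++ b) hl]
        rw [hK, hD, h1, h2, D_B u hu, D_B v hv]
        have hch : ((m + 1 + 2).choose (u.length + 1) : ℝ)
            = ((m + 2).choose u.length : ℝ) + ((m + 2).choose (u.length + 1) : ℝ) := by
          rw [show m + 1 + 2 = (m + 2) + 1 by ring, Nat.choose_succ_succ]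
          push_cast; ring
        by_cases eu : u = []
        · by_cases ev : v = []
          · subst eu ev; simp at h
          · subst eu
            simp only [List.length_nil, zero_add] at h
            rw [hch]
            simp only [if_true, if_neg ev, B_nil, List.nil_append, List.length_nil, zero_add,
              Nat.choose_zero_right, Nat.choose_one_right]
            push_cast
            ring
        · by_cases ev : v = []
          · subst ev
            simp only [List.length_nil, add_zero] at h
            rw [hch]
            have c1 : ((m + 2).choose u.length : ℝ) = (m + 2 : ℝ) := by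
              rw [h, show m + 2 = (m + 1) + 1 by ring, Nat.choose_succ_self_right]
              push_cast; ring
            have c2 : ((m + 2).choose (u.length + 1) : ℝ) = 1 := by
              rw [h, Nat.choose_self]; simp
            rw [c1, c2]
            simp only [if_true, if_neg eu, B_nil, List.append_nil]
            ring
          · rw [hch, if_neg eu, if_neg ev]
            ring
      · have : ∀ x : Fin 4, B (u ++ x :: v) = 0 := by
          intro x
          apply B_not
          intro hh
          rw [Pr_mid] at hh
          exact hv (Pr_none_of_some x none v hh.2)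
        simp only [this, B_not v hv]
        simp
    · have : ∀ x : Fin 4, B (u ++ x :: v) = 0 := by
        intro x
        apply B_not
        intro hh
        exact hu (Pr_none_of_left _ _ _ _ hh)
      simp only [this, B_not u hu]
      simp

/-! cyclic part -/

def cpr : L4 → Prop
  | [] => False
  | x :: t => Pr (some x) t (some x)

instance decCpr : ∀ w : L4, Decidable (cpr w)
  | [] => by unfold cpr; infer_instance
  | x :: t => by unfold cpr; infer_instance

noncomputable def Bcn : ℕ → L4 → ℝ
  | 0, _ => 0
  | n + 1, w => if cpr w then (if n = 1 then 1 else spl (fun v _ u => Bcn n (v ++ u)) w) else 0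

noncomputable def Bc (w : L4) : ℝ := Bcn w.length w

theorem Bc_not (w : L4) (h : ¬ cpr w) : Bc w = 0 := by
  cases w with
  | nil => rfl
  | cons x w =>
    unfold Bc
    simp only [List.length_cons, Bcn, if_neg h]

theorem Bc_two (w : L4) (h : cpr w) (hw : w.length = 2) : Bc w = 1 := by
  unfold Bc
  rw [hw]
  simp [Bcn, h]

theorem Bc_rec (w : L4) (h : cpr w) (hw : w.length ≠ 2) :
    Bc w = D Bc w := by
  cases w with
  | nil => simp [D, spl, Bc, Bcn]
  | cons x w =>
    unfold Bc D
    simp only [List.length_cons, Bcn, if_pos h]
    rw [if_neg (by simpa using hw)]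
    apply spl_congr
    intro v c u e
    have : (v ++ u).length = w.length := by
      have := congrArg List.length e
      simp only [List.length_append, List.length_cons] at this ⊢
      omega
    rw [this]

theorem Bc_small (w : L4) (hw : w.length ≤ 1) : Bc w = 0 := by
  cases w with
  | nil => rfl
  | cons x w =>
    cases w with
    | nil => apply Bc_not; simp [cpr, Pr, ok]
    | cons y w => simp at hw

theorem cpr_rot (x : Fin 4) (w : L4) : cpr (x :: w) ↔ cpr (w ++ [x]) := by
  cases w with
  | nil => simp
  | cons y t =>
    simp only [List.cons_append, cpr, Pr]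
    rw [Pr_mid]
    simp only [Pr, ok]
    constructor
    · rintro ⟨h1, h2⟩
      refine ⟨h2, ?_⟩
      right
      intro e
      rcases h1 with h1 | h1
      · simp at h1
      · exact h1 e
    · rintro ⟨h1, h2⟩
      refine ⟨?_, h1⟩
      right
      intro e
      rcases h2 with h2 | h2
      · simp at h2
      · exact h2 e

theorem Bc_rot_aux (n : ℕ) : ∀ (x : Fin 4) (w : L4), w.length = n → Bc (x :: w) = Bc (w ++ [x]) := by
  induction n with
  | zero =>
    intro x w h
    have : w = [] := List.length_eq_zero_iff.1 h
    subst this; rfl
  | succ n ih =>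
    intro x w h
    by_cases hc : cpr (x :: w)
    · have hc' : cpr (w ++ [x]) := (cpr_rot x w).1 hc
      by_cases h2 : (x :: w).length = 2
      · rw [Bc_two _ hc h2, Bc_two _ hc' (by simpa using h2)]
      · rw [Bc_rec _ hc h2, Bc_rec _ hc' (by simpa using h2)]
        have e1 := D_mid Bc [] w x
        have e2 := D_mid Bc w [] x
        simp only [List.nil_append] at e1
        rw [e1, e2]
        have z1 : D (fun t => Bc (t ++ x :: w)) [] = 0 := rfl
        have z2 : D (fun t => Bc (w ++ x :: t)) [] = 0 := rfl
        rw [z1, z2]
        have e3 : D (fun t => Bc (x :: t)) w = D (fun t => Bc (t ++ [x])) w := by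
          unfold D
          apply spl_congr
          intro a c b e
          apply ih
          rw [e] at h
          simp only [List.length_append, List.length_cons] at h ⊢
          omega
        rw [e3]
        simp only [List.append_nil]
        ring
    · have hc' : ¬ cpr (w ++ [x]) := fun h => hc ((cpr_rot x w).2 h)
      rw [Bc_not _ hc, Bc_not _ hc']

theorem Bc_rot (x : Fin 4) (w : L4) : Bc (x :: w) = Bc (w ++ [x]) := Bc_rot_aux _ x w rfl

theorem Bc_proper (x : Fin 4) (w : L4) : Bc (x :: x :: w) = 0 := by
  apply Bc_not
  simp [cpr, Pr, ok]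

theorem Bc_nonneg_aux (n : ℕ) : ∀ w : L4, 0 ≤ Bcn n w := by
  induction n with
  | zero => intro w; exact le_refl _
  | succ n ih =>
    intro w
    simp only [Bcn]
    split_ifs
    · exact zero_le_one
    · exact spl_nonneg _ _ (fun _ _ _ _ => ih _)
    · exact le_refl _

theorem cpr_map (σ : Equiv.Perm (Fin 4)) (w : L4) : cpr (w.map σ) ↔ cpr w := by
  cases w with
  | nil => rfl
  | cons x w =>
    simp only [List.map_cons, cpr]
    have := Pr_map σ (some x) (some x) w
    simpa using this

theorem Bc_map_aux (σ : Equiv.Perm (Fin 4)) (n : ℕ) : ∀ w : L4, Bcn n (w.map σ) = Bcn n w := by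
  induction n with
  | zero => intro w; rfl
  | succ n ih =>
    intro w
    simp only [Bcn]
    have h1 : spl (fun v (_ : Fin 4) u => Bcn n (v ++ u)) (w.map σ)
        = spl (fun v (_ : Fin 4) u => Bcn n (v ++ u)) w := by
      rw [spl_map]
      apply spl_congr
      intro v c u _
      rw [← List.map_append, ih]
    rw [h1]
    by_cases h : cpr w
    · rw [if_pos h, if_pos ((cpr_map σ w).2 h)]
    · rw [if_neg h, if_neg (fun h' => h ((cpr_map σ w).1 h'))]

/-- cyclically improper words: two equal letters at the beginning and at the end -/
theorem Bc_ends (x : Fin 4) (w : L4) : Bc (x :: (w ++ [x])) = 0 := by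
  rw [Bc_rot, List.append_assoc]
  apply Bc_not
  intro h
  cases w with
  | nil => simp [cpr, Pr, ok] at h
  | cons y w =>
    simp only [List.cons_append, cpr] at h
    exact Pr_double _ _ x w [] h

theorem Bc_double (a b : L4) (x : Fin 4) : Bc (a ++ x :: x :: b) = 0 := by
  apply Bc_not
  intro h
  cases a with
  | nil => simp [cpr, Pr, ok] at h
  | cons y a =>
    simp only [List.cons_append, cpr] at h
    exact Pr_double _ _ x a b h

theorem Kc (w : L4) (hw : Pr none w none) (hl : 2 ≤ w.length) (x : Fin 4) :
    D Bc (w ++ [x]) = Bc (w ++ [x]) +
      2 * ((if w.getLast? = some x then 1 else 0) + (if w.head? = some x then 1 else 0)) *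
        Bc w := by
  obtain ⟨f, w0, rfl⟩ : ∃ f w0, w = f :: w0 := by
    cases w with
    | nil => simp at hl
    | cons f w0 => exact ⟨f, w0, rfl⟩
  obtain ⟨c, l, rfl⟩ : ∃ c l, w0 = c ++ [l] := by
    rcases List.eq_nil_or_concat w0 with rfl | ⟨c, l, rfl⟩
    · simp at hl
    · exact ⟨c, l, by rw [List.concat_eq_append]⟩
  have eL : (f :: (c ++ [l])).getLast? = some l := by
    rw [show f :: (c ++ [l]) = (f :: c) ++ [l] by rfl]
    simp only [List.getLast?_append, List.getLast?_singleton, Option.some_or]
  have eH : (f :: (c ++ [l])).head? = some f := rfl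
  rw [eL, eH]
  -- expand the deletion sum
  have hD : D Bc (f :: (c ++ [l]) ++ [x]) =
      Bc (c ++ [l] ++ [x]) + D (fun t => Bc (f :: (t ++ [l] ++ [x]))) c
        + Bc (f :: (c ++ [x])) + Bc (f :: (c ++ [l])) := by
    have e1 := D_mid Bc [] (c ++ [l] ++ [x]) f
    simp only [List.nil_append] at e1
    rw [show f :: (c ++ [l]) ++ [x] = f :: (c ++ [l] ++ [x]) by rfl, e1]
    have z1 : D (fun t => Bc (t ++ f :: (c ++ [l] ++ [x]))) [] = 0 := rfl
    rw [z1]
    have e2 := D_mid (fun t => Bc (f :: t)) (c ++ [l]) [] x
    rw [e2]
    have e3 := D_mid (fun t => Bc (f :: (t ++ [x]))) c [] l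
    simp only [List.append_nil] at e3 ⊢
    have z2 : D (fun t => Bc (f :: (c ++ [l] ++ x :: t))) [] = 0 := rfl
    rw [z2, e3]
    have z3 : D (fun t => Bc (f :: (c ++ l :: t ++ [x]))) [] = 0 := rfl
    rw [z3]
    ring
  have hBc1 : x = l → Bc (f :: (c ++ [l]) ++ [x]) = 0 := by
    rintro rfl
    have := Bc_double (f :: c) [] x
    simpa using this
  have hBc2 : x = f → Bc (f :: (c ++ [l]) ++ [x]) = 0 := by
    rintro rfl
    have := Bc_ends x (c ++ [l])
    simpa using this
  by_cases h1 : x = l
  · by_cases h2 : x = f
    · subst h1
      subst h2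
      have hz : Bc (x :: (c ++ [x])) = 0 := Bc_ends x c
      rw [hBc1 rfl, hD, hz]
      have z1 : Bc (c ++ [x] ++ [x]) = 0 := by
        have := Bc_double c [] x
        simpa using this
      have z2 : D (fun t => Bc (x :: (t ++ [x] ++ [x]))) c = 0 := by
        apply D_eq_zero; intro t
        have := Bc_double (x :: t) [] x
        simpa using this
      rw [z1, z2]; ring
    · subst h1
      rw [hBc1 rfl, hD, if_pos rfl, if_neg (fun e => h2 (Option.some.inj e).symm)]
      have z1 : Bc (c ++ [x] ++ [x]) = 0 := by
        have := Bc_double c [] x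
        simpa using this
      have z2 : D (fun t => Bc (f :: (t ++ [x] ++ [x]))) c = 0 := by
        apply D_eq_zero; intro t
        have := Bc_double (f :: t) [] x
        simpa using this
      rw [z1, z2]; ring
  · by_cases h2 : x = f
    · subst h2
      rw [hBc2 rfl, hD, if_pos rfl, if_neg (fun e => h1 (Option.some.inj e).symm)]
      have z1 : Bc (c ++ [l] ++ [x]) = Bc (x :: (c ++ [l])) := (Bc_rot x (c ++ [l])).symm
      have z2 : D (fun t => Bc (x :: (t ++ [l] ++ [x]))) c = 0 := by
        apply D_eq_zero; intro t
        exact Bc_ends x (t ++ [l])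
      have z3 : Bc (x :: (c ++ [x])) = 0 := Bc_ends x c
      rw [z1, z2, z3]; ring
    · rw [if_neg (fun e => h1 (Option.some.inj e).symm),
        if_neg (fun e => h2 (Option.some.inj e).symm)]
      have hc : cpr (f :: (c ++ [l]) ++ [x]) := by
        have hp : Pr (some f) (c ++ [l]) none := by
          simp only [Pr] at hw
          exact hw.2
        show Pr (some f) (c ++ [l] ++ x :: []) (some f)
        rw [Pr_mid]
        refine ⟨?_, ?_⟩
        · apply Pr_last _ _ _ hp
          · simp only [List.getLast?_append, List.getLast?_singleton, Option.some_or]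
            exact fun e => h1 (Option.some.inj e).symm
          · intro e; simp at e
        · simp only [Pr, ok]
          right
          exact fun e => h2 (Option.some.inj e)
      rw [Bc_rec _ hc (by simp)]
      ring

theorem starc (m : ℕ) : ∀ w : L4, w.length = m + 1 → ∑ x : Fin 4, Bc (w ++ [x]) = 3 * B w := by
  induction m with
  | zero =>
    intro w h
    obtain ⟨a, rfl⟩ : ∃ a, w = [a] := List.length_eq_one_iff.1 h
    have hB : B [a] = 1 := by
      rw [B_rec _ (by simp) (by simp [Pr, ok])]
      simp [spl, B_nil]
    rw [hB]
    have : ∀ x : Fin 4, Bc ([a] ++ [x]) = if x = a then 0 else 1 := by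
      intro x
      by_cases hx : x = a
      · subst hx
        rw [if_pos rfl]
        exact Bc_proper x []
      · rw [if_neg hx]
        apply Bc_two
        · simp only [List.cons_append, List.nil_append, cpr, Pr, ok]
          refine ⟨Or.inr ?_, Or.inr ?_⟩
          · exact fun e => hx (Option.some.inj e).symm
          · exact fun e => hx (Option.some.inj e)
        · rfl
    simp only [this]
    rw [Finset.sum_ite]
    simp only [Finset.sum_const_zero, zero_add, Finset.sum_const, nsmul_eq_mul, mul_one]
    rw [Finset.filter_ne']
    simp
  | succ m ih =>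
    intro w h
    by_cases hw : Pr none w none
    · have hne : w ≠ [] := by rintro rfl; simp at h
      have hK : ∑ x : Fin 4, Bc (w ++ [x]) = ∑ x : Fin 4, D Bc (w ++ [x]) - 4 * Bc w := by
        have e4 : (4 : ℝ) * Bc w = ∑ x : Fin 4, 2 * ((if w.getLast? = some x then 1 else 0) +
            (if w.head? = some x then 1 else 0)) * Bc w := by
          rw [← Finset.sum_mul, ← Finset.mul_sum, Finset.sum_add_distrib, sum_last, sum_head,
            if_neg hne]
          ring
        rw [e4, ← Finset.sum_sub_distrib]
        apply Finset.sum_congr rfl
        intro x _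
        rw [Kc w hw (by omega) x]
        ring
      have hD : ∑ x : Fin 4, D Bc (w ++ [x]) = D (fun t => ∑ x : Fin 4, Bc (t ++ [x])) w
          + 4 * Bc w := by
        have e5 : ∀ x : Fin 4, D Bc (w ++ [x]) = D (fun t => Bc (t ++ [x])) w + Bc w := by
          intro x
          rw [D_mid]
          have z : D (fun t => Bc (w ++ x :: t)) [] = 0 := rfl
          rw [z]
          simp
        simp only [e5, Finset.sum_add_distrib]
        unfold D
        rw [spl_sum]
        simp
      have hE : D (fun t => ∑ x : Fin 4, Bc (t ++ [x])) w = 3 * D B w := by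
        unfold D
        rw [← spl_mul_left]
        apply spl_congr
        intro a c b e
        apply ih
        rw [e] at h
        simp only [List.length_append, List.length_cons] at h ⊢
        omega
      rw [hK, hD, hE, D_B w hw, if_neg hne]
      ring
    · rw [B_not w hw]
      have : ∀ x : Fin 4, Bc (w ++ [x]) = 0 := by
        intro x
        apply Bc_not
        intro hc
        apply hw
        rw [← cpr_rot] at hc
        simp only [cpr] at hc
        exact Pr_none_of_some x none w (Pr_none_of_left (some x) (some x) w [] (by simpa using hc))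
      simp only [this]
      simp

noncomputable def P4 (w : L4) : ℝ := B w / (2 ^ w.length * ((w.length + 1).factorial : ℝ))

noncomputable def C4 (w : L4) : ℝ := Bc w / (3 * 2 ^ (w.length - 1) * (w.length.factorial : ℝ))

theorem sum_fin1 (f : L4 → ℝ) : ∑ s : Fin 1 → Fin 4, f (List.ofFn s) = ∑ x : Fin 4, f [x] := by
  rw [← Equiv.sum_comp (Equiv.funUnique (Fin 1) (Fin 4)).symm]
  apply Finset.sum_congr rfl
  intro x _
  congr 1

theorem d4 : S_D4 := by
  refine ⟨{
    P := P4
    Cy := C4
    P_nil := ?_
    P_star := ?_
    Cy_nonneg := ?_
    Cy_rot := ?_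
    Cy_map := ?_
    Cy_proper := ?_
    Cy_star := ?_ }⟩
  · simp [P4, B_nil]
  · intro u v
    rw [sum_fin1 (fun s => P4 (u ++ s ++ v))]
    have e1 : ∀ x : Fin 4, P4 (u ++ [x] ++ v) =
        B (u ++ x :: v) / (2 ^ (u.length + v.length + 1) *
          ((u.length + v.length + 2).factorial : ℝ)) := by
      intro x
      unfold P4
      have : (u ++ [x] ++ v).length = u.length + v.length + 1 := by
        simp only [List.length_append, List.length_cons, List.length_nil]; ring
      rw [this]
      simp
    simp only [e1]
    rw [← Finset.sum_div, star _ u v rfl]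
    unfold P4
    have hch : ((u.length + v.length + 2).choose (u.length + 1) : ℝ) *
        ((u.length + 1).factorial : ℝ) * ((v.length + 1).factorial : ℝ)
        = ((u.length + v.length + 2).factorial : ℝ) := by
      have h := Nat.choose_mul_factorial_mul_factorial
        (show u.length + 1 ≤ u.length + v.length + 2 by omega)
      rw [show u.length + v.length + 2 - (u.length + 1) = v.length + 1 by omega] at h
      exact_mod_cast h
    have f1 : ((u.length + 1).factorial : ℝ) ≠ 0 := by positivity
    have f2 : ((v.length + 1).factorial : ℝ) ≠ 0 := by positivity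
    have f3 : ((u.length + v.length + 2).factorial : ℝ) ≠ 0 := by positivity
    rw [div_mul_div_comm, div_eq_div_iff (by positivity) (by positivity), ← hch]
    ring
  · intro w
    unfold C4
    exact div_nonneg (Bc_nonneg_aux _ w) (by positivity)
  · intro x w
    unfold C4
    rw [Bc_rot]
    simp
  · intro σ w
    unfold C4 Bc
    rw [List.length_map, Bc_map_aux]
  · intro x w
    unfold C4
    rw [Bc_proper]; simp
  · intro w hw
    rw [sum_fin1 (fun s => C4 (w ++ s))]
    unfold C4 P4
    have e1 : ∀ x : Fin 4, Bc (w ++ [x]) / (3 * 2 ^ ((w ++ [x]).length - 1) *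
        (((w ++ [x]).length).factorial : ℝ)) =
        Bc (w ++ [x]) / (3 * 2 ^ w.length * ((w.length + 1).factorial : ℝ)) := by
      intro x
      have : (w ++ [x]).length = w.length + 1 := by simp
      rw [this, Nat.add_sub_cancel]
    simp only [e1]
    rw [← Finset.sum_div, starc (w.length - 1) w (by omega)]
    rw [mul_assoc (3 : ℝ), mul_div_mul_left _ _ (by norm_num : (3 : ℝ) ≠ 0)]

end Pool.Agent.W816.CY
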