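import Pool.Agent.W438.CY.Stm

/-!
Part EQV of project CY: description of the cyclic properness from the vertex `0`.
-/

set_option autoImplicit false

namespace Pool.Agent.W816.CY

open Pool.Agent.W438.CY

lemma cy_zero (m : ℕ) : cy m 0 = 0 := by
  apply Fin.ext
  simp [cy]

lemma cy_succ {m : ℕ} (k : ℕ) (hk : k < m) : cy m (k + 1) = (⟨k, hk⟩ : Fin m).succ := by
  apply Fin.ext
  simp only [cy, Fin.val_succ]
  exact Nat.mod_eq_of_lt (by omega)

lemma cy_add (m n : ℕ) : cy m (m + 1 + n) = cy m n := by
  apply Fin.ext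
  simp [cy]

lemma cy_add_mul (m n k : ℕ) : cy m (n + (m + 1) * k) = cy m n := by
  apply Fin.ext
  simp [cy]

lemma cy_top (m : ℕ) : cy m (m + 1) = 0 := by
  apply Fin.ext
  simp [cy]

theorem eqv : S_EQV := by
  intro m C y G
  constructor
  · intro H
    refine ⟨?_, ?_, ?_⟩
    · intro i j hij
      rcases hij with hin | hout
      · obtain ⟨hlt, hc⟩ := hin
        have h1 := H ((i : ℕ) + 1) ((j : ℕ) + 1) (by have := Fin.lt_def.mp hlt; omega)
          (by have := j.isLt; omega) ?_
        · rw [cy_succ (i : ℕ) i.isLt, cy_succ (j : ℕ) j.isLt] at h1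
          exact h1
        · intro l hl1 hl2
          obtain ⟨k, rfl⟩ : ∃ k, l = k + 1 := ⟨l - 1, by omega⟩
          have hk : k < m := by have := j.isLt; omega
          rw [cy_succ (i : ℕ) i.isLt, cy_succ (j : ℕ) j.isLt, cy_succ k hk]
          exact hc ⟨k, hk⟩ (Fin.lt_def.mpr (by simp only []; omega))
            (Fin.lt_def.mpr (by simp only []; omega))
      · obtain ⟨hle, hb1, hb2, hc1, hc2⟩ := hout
        have hle' := Fin.le_def.mp hle
        have h1 := H ((j : ℕ) + 1) (m + 1 + ((i : ℕ) + 1)) (by have := j.isLt; omega)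
          (by omega) ?_
        · rw [cy_add, cy_succ (i : ℕ) i.isLt, cy_succ (j : ℕ) j.isLt] at h1
          exact fun h => h1 h.symm
        · intro l hl1 hl2
          rw [cy_add, cy_succ (i : ℕ) i.isLt, cy_succ (j : ℕ) j.isLt]
          rcases lt_trichotomy l (m + 1) with hl | hl | hl
          · obtain ⟨k, rfl⟩ : ∃ k, l = k + 1 := ⟨l - 1, by omega⟩
            have hk : k < m := by omega
            rw [cy_succ k hk]
            exact hc2 ⟨k, hk⟩ (Fin.lt_def.mpr (by simp only []; omega))
          · subst hl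
            rw [cy_top]
            exact ⟨hb1, hb2⟩
          · obtain ⟨k, rfl⟩ : ∃ k, l = m + 1 + (k + 1) := ⟨l - (m + 1) - 1, by omega⟩
            have hk : k < m := by have := i.isLt; omega
            rw [cy_add, cy_succ k hk]
            exact hc1 ⟨k, hk⟩ (Fin.lt_def.mpr (by simp only []; omega))
    · intro hB
      have h1 := H 0 (m + 1) (by omega) (by omega) ?_
      · rw [cy_zero, cy_top] at h1
        exact h1 rfl
      · intro l hl1 hl2
        obtain ⟨k, rfl⟩ : ∃ k, l = k + 1 := ⟨l - 1, by omega⟩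
        have hk : k < m := by omega
        rw [cy_zero, cy_top, cy_succ k hk]
        have h2 := hB ⟨k, hk⟩
        exact ⟨le_of_lt h2, h2⟩
    · intro j hj
      rcases hj with hL | hR
      · have h1 := H ((j : ℕ) + 1) (m + 1) (by have := j.isLt; omega) (by omega) ?_
        · rw [cy_top, cy_succ (j : ℕ) j.isLt] at h1
          exact h1
        · intro l hl1 hl2
          obtain ⟨k, rfl⟩ : ∃ k, l = k + 1 := ⟨l - 1, by omega⟩
          have hk : k < m := by omega
          rw [cy_top, cy_succ (j : ℕ) j.isLt, cy_succ k hk]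
          exact hL ⟨k, hk⟩ (Fin.lt_def.mpr (by simp only []; omega))
      · have h1 := H 0 ((j : ℕ) + 1) (by omega) (by have := j.isLt; omega) ?_
        · rw [cy_zero, cy_succ (j : ℕ) j.isLt] at h1
          exact fun h => h1 h.symm
        · intro l hl1 hl2
          obtain ⟨k, rfl⟩ : ∃ k, l = k + 1 := ⟨l - 1, by omega⟩
          have hk : k < m := by have := j.isLt; omega
          rw [cy_zero, cy_succ (j : ℕ) j.isLt, cy_succ k hk]
          exact hR ⟨k, hk⟩ (Fin.lt_def.mpr (by simp only []; omega))
  · rintro ⟨hP, hB, hA⟩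
    -- the statement for `i ≤ m`
    have key : ∀ i j : ℕ, i < m + 1 → i < j → j ≤ i + (m + 1) →
        (∀ l : ℕ, i < l → l < j → G (cy m i) ≤ G (cy m l) ∧ G (cy m j) < G (cy m l)) →
        y (cy m i) ≠ y (cy m j) := by
      intro i j hi hij hji hc
      rcases Nat.eq_zero_or_pos i with h0 | hpos
      · subst h0
        rcases Nat.lt_or_ge j (m + 1) with hj | hj
        · obtain ⟨k, rfl⟩ : ∃ k, j = k + 1 := ⟨j - 1, by omega⟩
          have hk : k < m := by omega
          rw [cy_zero, cy_succ k hk] at hc ⊢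
          refine fun h => hA ⟨k, hk⟩ (Or.inr ?_) h.symm
          intro l hl
          have hl' : (l : ℕ) < k := Fin.lt_def.mp hl
          have h2 := hc ((l : ℕ) + 1) (by omega) (by omega)
          rw [cy_succ (l : ℕ) l.isLt] at h2
          exact h2
        · obtain rfl : j = m + 1 := by omega
          exfalso
          apply hB
          intro l
          have h2 := hc ((l : ℕ) + 1) (by omega) (by have := l.isLt; omega)
          rw [cy_zero, cy_top, cy_succ (l : ℕ) l.isLt] at h2
          exact h2.2
      · obtain ⟨a, rfl⟩ : ∃ a, i = a + 1 := ⟨i - 1, by omega⟩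
        have ha : a < m := by omega
        rcases lt_trichotomy j (m + 1) with hj | hj | hj
        · obtain ⟨k, rfl⟩ : ∃ k, j = k + 1 := ⟨j - 1, by omega⟩
          have hk : k < m := by omega
          rw [cy_succ a ha, cy_succ k hk] at hc ⊢
          refine hP ⟨a, ha⟩ ⟨k, hk⟩ (Or.inl ⟨Fin.lt_def.mpr (by simp only []; omega), ?_⟩)
          intro l hl1 hl2
          have hl1' : a < (l : ℕ) := Fin.lt_def.mp hl1
          have hl2' : (l : ℕ) < k := Fin.lt_def.mp hl2
          have h2 := hc ((l : ℕ) + 1) (by omega) (by omega)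
          rw [cy_succ (l : ℕ) l.isLt] at h2
          exact h2
        · subst hj
          rw [cy_succ a ha, cy_top] at hc ⊢
          refine hA ⟨a, ha⟩ (Or.inl ?_)
          intro l hl
          have hl' : a < (l : ℕ) := Fin.lt_def.mp hl
          have h2 := hc ((l : ℕ) + 1) (by omega) (by have := l.isLt; omega)
          rw [cy_succ (l : ℕ) l.isLt] at h2
          exact h2
        · obtain ⟨k, rfl⟩ : ∃ k, j = m + 1 + (k + 1) := ⟨j - (m + 1) - 1, by omega⟩
          have hk : k < m := by omega
          rw [cy_succ a ha, cy_add, cy_succ k hk] at hc ⊢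
          have hb := hc (m + 1) (by omega) (by omega)
          rw [cy_top] at hb
          refine fun h => hP ⟨k, hk⟩ ⟨a, ha⟩ (Or.inr ⟨Fin.le_def.mpr (by simp only []; omega),
            hb.1, hb.2, ?_, ?_⟩) h.symm
          · intro l hl
            have hl' : (l : ℕ) < k := Fin.lt_def.mp hl
            have h2 := hc (m + 1 + ((l : ℕ) + 1)) (by omega) (by omega)
            rw [cy_add, cy_succ (l : ℕ) l.isLt] at h2
            exact h2
          · intro l hl
            have hl' : a < (l : ℕ) := Fin.lt_def.mp hl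
            have h2 := hc ((l : ℕ) + 1) (by omega) (by have := l.isLt; omega)
            rw [cy_succ (l : ℕ) l.isLt] at h2
            exact h2
    intro i j hij hji hc
    have hdiv : i % (m + 1) + (m + 1) * (i / (m + 1)) = i := Nat.mod_add_div i (m + 1)
    have hmod : i % (m + 1) < m + 1 := Nat.mod_lt _ (Nat.succ_pos m)
    obtain ⟨q, hq⟩ : ∃ q, q = (m + 1) * (i / (m + 1)) := ⟨_, rfl⟩
    obtain ⟨r, hr⟩ : ∃ r, r = i % (m + 1) := ⟨_, rfl⟩
    have hper : ∀ n : ℕ, cy m (n + q) = cy m n := by
      intro n
      rw [hq]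
      exact cy_add_mul m n _
    rw [← hq, ← hr] at hdiv
    rw [← hr] at hmod
    obtain ⟨s, hs⟩ : ∃ s, j = s + q := ⟨j - q, by omega⟩
    have hi : i = r + q := hdiv.symm
    rw [hi, hs, hper, hper]
    apply key r s hmod (by omega) (by omega)
    intro l hl1 hl2
    have h3 := hc (l + q) (by omega) (by omega)
    rw [hi, hs, hper, hper, hper] at h3
    exact h3

end Pool.Agent.W816.CY
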